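import Pool.Agent.H58.PPCFail

set_option autoImplicit false

namespace Pool.Agent.Results.MP_b61c36_nt.Exists

open MeasureTheory Filter Topology
open scoped Classical

/-- Poissonian pair correlations of a real sequence, with the distance to the nearest integer
written as `|t - round t|`. -/
def PPC (x : ℕ → ℝ) : Prop :=
  ∀ s : ℝ, 0 < s → Tendsto (fun N : ℕ =>
    (((Finset.range N ×ˢ Finset.range N).filter (fun p : ℕ × ℕ => p.1 ≠ p.2 ∧
      |(x p.1 - x p.2) - round (x p.1 - x p.2)| < s / N)).card : ℝ) / N) atTop (𝓝 (2 * s))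

theorem result :
    ∃ a : ℕ → ℕ, StrictMono a ∧ (∀ n, 0 < a n) ∧
      (∀ᵐ α : ℝ, ¬ PPC (fun n => Int.fract ((a n : ℝ) * α))) ∧
      ∃ α : ℝ, PPC (fun n => Int.fract ((a n : ℝ) * α)) := by
  obtain ⟨a, h1, h2, h3, h4⟩ := Pool.Agent.H58.PPC.exists_fail
  have key : ∀ α : ℝ, PPC (fun n => Int.fract ((a n : ℝ) * α)) ↔
      Pool.Agent.H58.PPC.IsPPC (fun n => (((a n : ℝ) * α : ℝ) : UnitAddCircle)) := by
    intro α
    unfold PPC Pool.Agent.H58.PPC.IsPPC
    simp only [Pool.Agent.H58.PPC.prs_eq (fun n => (a n : ℝ) * α)]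
  refine ⟨a, h1, h2, ?_, √2, (key _).2 h4⟩
  filter_upwards [h3] with α hα
  rwa [key]

end Pool.Agent.Results.MP_b61c36_nt.Exists
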